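import Pool.Agent.J4.H5.VJ.Defs4
import Pool.Agent.Helper259.HtExt

/-!
# Project VJ, piece NSX: the heights
-/

set_option autoImplicit false

open MvPolynomial NumberField IsDedekindDomain Module

namespace Pool.Agent.J4.H31.VJ

open Pool.Agent.J4.H5.VJ

namespace NSXH

/-- a monomial of degree `p` is a product of `p` variables -/
theorem exists_tuple {ι : Type} [Fintype ι] (e : ι → ℕ) (p : ℕ) (h : ∑ l, e l = p) :
    ∃ i : Fin p → ι, ∀ (R : Type) [CommSemiring R] (x : ι → R), ∏ a, x (i a) = ∏ l, x l ^ e l := by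
  classical
  subst h
  set f : ι →₀ ℕ := Finsupp.equivFunOnFinite.symm e with hf
  have hfe : ∀ l, f l = e l := fun l => rfl
  obtain ⟨L, hL⟩ := Quot.exists_rep (Finsupp.toMultiset f)
  have hLm : (L : Multiset ι) = Finsupp.toMultiset f := hL
  have hlen : L.length = ∑ l, e l := by
    have h1 : Multiset.card (L : Multiset ι) = L.length := Multiset.coe_card L
    rw [← h1, hLm, Finsupp.card_toMultiset, Finsupp.sum_fintype _ _ (fun _ => rfl)]
    rfl
  refine ⟨fun a => L.get (Fin.cast hlen.symm a), fun R _ x => ?_⟩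
  have h2 : ∏ a : Fin (∑ l, e l), x (L.get (Fin.cast hlen.symm a)) = ∏ a : Fin L.length, x (L.get a) := by
    refine Fintype.prod_equiv (finCongr hlen.symm) _ _ fun a => rfl
  rw [h2]
  have h3 : ∏ a : Fin L.length, x (L.get a) = (L.map x).prod := by
    have := Fin.prod_univ_fun_getElem L x
    simp
  rw [h3]
  have h4 : (L.map x).prod = ((L : Multiset ι).map x).prod := by
    rw [Multiset.map_coe, Multiset.prod_coe]
  rw [h4, hLm, Finset.prod_multiset_map_count]
  refine Finset.prod_subset_one_on_sdiff (Finset.subset_univ _) ?_ ?_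
  · intro l hl
    have h5 : l ∉ (Finsupp.toMultiset f).toFinset := (Finset.mem_sdiff.mp hl).2
    rw [Multiset.mem_toFinset, ← Multiset.count_eq_zero, Finsupp.count_toMultiset] at h5
    rw [← hfe, h5, pow_zero]
  · intro l _
    rw [Finsupp.count_toMultiset, hfe]

/-- a form of degree `p` as a linear function of the products of `p` coordinates -/
theorem exists_coeff {k : Type} [Field k] {M p : ℕ} (P : MvPolynomial (Fin M) k)
    (hP : P.IsHomogeneous p) : ∃ A : (Fin p → Fin M) → k, ∀ (L : Type) [Field L] [Algebra k L]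
      (x : Fin M → L), aeval x P = ∑ τ : Fin p → Fin M, algebraMap k L (A τ) * ∏ a, x (τ a) := by
  classical
  have h : ∀ e : Fin M →₀ ℕ, e ∈ P.support → ∃ i : Fin p → Fin M, ∀ (R : Type) [CommSemiring R]
      (x : Fin M → R), ∏ a, x (i a) = ∏ l, x l ^ e l := by
    intro e he
    apply exists_tuple
    have h1 := hP (mem_support_iff.mp he)
    rw [Finsupp.weight_apply, Finsupp.sum_fintype _ _ (fun _ => by simp)] at h1
    simpa using h1
  rcases isEmpty_or_nonempty (Fin p → Fin M) with hE | hE
  · refine ⟨fun _ => 0, fun L _ _ x => ?_⟩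
    have h0 : P = 0 := by
      rw [← MvPolynomial.support_eq_empty, Finset.eq_empty_iff_forall_notMem]
      intro e he
      exact hE.false (h e he).choose
    rw [h0, map_zero, Finset.univ_eq_empty, Finset.sum_empty]
  choose! tup htup using h
  refine ⟨fun τ => ∑ e ∈ P.support with tup e = τ, coeff e P, fun L _ _ x => ?_⟩
  have h2 : aeval x P = ∑ e ∈ P.support, algebraMap k L (coeff e P) * ∏ a, x (tup e a) := by
    rw [aeval_def, eval₂_eq']
    refine Finset.sum_congr rfl fun e he => ?_
    rw [htup e he]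
  rw [h2, ← Finset.sum_fiberwise P.support tup]
  refine Finset.sum_congr rfl fun τ _ => ?_
  rw [map_sum, Finset.sum_mul]
  refine Finset.sum_congr rfl fun e he => ?_
  rw [(Finset.mem_filter.mp he).2]

/-- the heights -/
theorem hei (k : Type) [Field k] [NumberField k] (n s N : ℕ) (hsN : s ≤ N) {I : Type} [Fintype I]
    (P : Fin (n + 1) → I → I → MvPolynomial (Fin (n + 1)) k)
    (hP : ∀ l b b', (P l b b').IsHomogeneous (N - s)) : ∃ c : ℝ,
    ∀ (L : Type) [Field L] [NumberField L] [Algebra k L] (x : Fin (n + 1) → L) (g W : I → L),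
      x ≠ 0 → g ≠ 0 → (∀ l b, x l ^ N * g b = ∑ b', aeval x (P l b b') * W b') →
      heightI k g + s * height k x ≤ heightI k W + c := by
  classical
  choose A hA using fun l b b' => exists_coeff (P l b b') (hP l b b')
  set B : (Fin (n + 1) × I) × ((Fin (N - s) → Fin (n + 1)) × I) → k :=
    fun z => A z.1.1 z.1.2 z.2.2 z.2.1 with hB
  refine ⟨finrank ℚ k * Real.log (Nat.card ((Fin (N - s) → Fin (n + 1)) × I)) + Height.logHeight B,
    fun L _ _ _ x g W hx hg hid => ?_⟩
  have hfk : FiniteDimensional k L := Module.Finite.of_restrictScalars_finite ℚ k L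
  have hD : (0 : ℝ) < finrank k L := by exact_mod_cast (finrank_pos : 0 < finrank k L)
  -- the vectors
  obtain ⟨l0, hl0⟩ := Function.ne_iff.mp hx
  obtain ⟨b0, hb0⟩ := Function.ne_iff.mp hg
  have hW : W ≠ 0 := by
    rintro rfl
    have h1 := hid l0 b0
    simp only [Pi.zero_apply, mul_zero, Finset.sum_const_zero] at h1
    exact mul_ne_zero (pow_ne_zero _ hl0) hb0 h1
  have hxN : x ^ N ≠ 0 := Function.ne_iff.mpr ⟨l0, by
    rw [Pi.pow_apply]
    exact pow_ne_zero _ hl0⟩
  set μ : (Fin (N - s) → Fin (n + 1)) → L := fun τ => ∏ a, x (τ a) with hμ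
  have hμ0 : μ ≠ 0 := Function.ne_iff.mpr ⟨fun _ => l0, by
    rw [hμ]
    exact Finset.prod_ne_zero_iff.mpr fun _ _ => hl0⟩
  have e1 : Height.logHeight (fun z : Fin (n + 1) × I => (x ^ N) z.1 * g z.2) =
      N * Height.logHeight x + Height.logHeight g := by
    rw [Height.logHeight_fun_mul_eq hxN hg, Height.logHeight_pow]
  have e2 : Height.logHeight μ = ((N - s : ℕ) : ℝ) * Height.logHeight x := by
    rw [hμ]
    have h2 := Height.logHeight_fun_prod_eq (α := Fin (N - s)) (ι := fun _ => Fin (n + 1))
      (x := fun _ => x) (fun _ => hx)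
    rw [Finset.sum_const, Finset.card_univ, Fintype.card_fin, nsmul_eq_mul] at h2
    exact h2
  have e3 : Height.logHeight (fun z : (Fin (N - s) → Fin (n + 1)) × I => μ z.1 * W z.2) =
      ((N - s : ℕ) : ℝ) * Height.logHeight x + Height.logHeight W := by
    rw [Height.logHeight_fun_mul_eq hμ0 hW, e2]
  have e4 : (fun z : Fin (n + 1) × I => (x ^ N) z.1 * g z.2) = fun z =>
      ∑ y : (Fin (N - s) → Fin (n + 1)) × I, (fun w => algebraMap k L (B w)) (z, y) *
        (fun z : (Fin (N - s) → Fin (n + 1)) × I => μ z.1 * W z.2) y := by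
    funext z
    rw [Pi.pow_apply, hid z.1 z.2, Fintype.sum_prod_type_right]
    refine Finset.sum_congr rfl fun b' _ => ?_
    rw [hA, Finset.sum_mul]
    refine Finset.sum_congr rfl fun τ _ => ?_
    simp only [hB, hμ]
    ring
  have h5 := Height.logHeight_linearMap_apply_le (K := L) (fun w => algebraMap k L (B w))
    (fun z : (Fin (N - s) → Fin (n + 1)) × I => μ z.1 * W z.2)
  rw [← e4, e1, e3, Pool.Agent.Helper259.HtExt.logHeight_ext] at h5
  have h6 : (Height.totalWeight L : ℝ) = finrank ℚ k * finrank k L := by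
    have h7 : Height.totalWeight L = finrank ℚ L := NumberField.totalWeight_eq_finrank L
    rw [h7, ← Module.finrank_mul_finrank ℚ k L]
    push_cast
    ring
  rw [h6, Nat.cast_sub hsN] at h5
  unfold heightI height
  have h8 : Height.logHeight g + s * Height.logHeight x ≤ Height.logHeight W +
      (finrank k L : ℝ) * (finrank ℚ k * Real.log (Nat.card ((Fin (N - s) → Fin (n + 1)) × I)) +
        Height.logHeight B) := by
    nlinarith [h5]
  have h9 := div_le_div_of_nonneg_right h8 hD.le
  rw [add_div, add_div, mul_div_cancel_left₀ _ hD.ne', mul_div_assoc] at h9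
  exact h9

end NSXH

end Pool.Agent.J4.H31.VJ
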