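import Pool.Agent.J4.H31.VJ.Hei
import Pool.Agent.J4.H5.VJ.T_NSXA

/-!
# Project VJ, piece NSX: the final step (algebra by helper82, heights here)
-/

set_option autoImplicit false

open MvPolynomial NumberField IsDedekindDomain Module

namespace Pool.Agent.J4.H31.VJ

open Pool.Agent.J4.H5.VJ

theorem t_NSX : S_NSX := by
  intro k _ _ n t u s f G d hd hT
  obtain ⟨N, hsN, P, hP, hid⟩ := NSXA.nsxa k n t u s f G d hd hT
  obtain ⟨c, hc⟩ := NSXH.hei k n s N hsN P hP
  exact ⟨c, fun L _ _ _ x hx hf α hg => hc L x (gaussRow f α x)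
    (fun β => (∏ j, x (β j)) * gaussRow f α x β) hx hg fun l b => hid L x hx hf α l b⟩

end Pool.Agent.J4.H31.VJ
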